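import Mathlib

/-!
Crude counting facts for finite groups: overgroups of a subgroup, and central commutators.
-/

namespace Pool.Agent.Lib.MP_d87a8f_pr.J

open Finset
open scoped commutatorElement

variable {G : Type} [Group G]

theorem normal_of_central {Z : Subgroup G} (hZ : Z ≤ Subgroup.center G) : Z.Normal :=
  ⟨fun z hz g => by
    rw [Subgroup.mem_center_iff.1 (hZ hz) g, mul_inv_cancel_right]; exact hz⟩

theorem card_le_mul {K Q : Type} [Group K] [Group Q] [Finite K] (f : K →* Q) {a b : ℕ}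
    (ha : Nat.card f.ker ≤ a) (hb : Nat.card f.range ≤ b) : Nat.card K ≤ a * b := by
  rw [← f.ker.card_mul_index, Subgroup.index_ker]
  exact Nat.mul_le_mul ha hb

/-- transfer to a subgroup -/
theorem transfer_central [Finite G] (H : Subgroup G) (z : G) (hz : z ∈ Subgroup.center G)
    (hc : z ∈ commutator G) : ∃ h : z ^ H.index ∈ H, (⟨z ^ H.index, h⟩ : H) ∈ commutator H := by
  have key : ∀ (k : ℕ) (g₀ : G), g₀⁻¹ * z ^ k * g₀ ∈ H → g₀⁻¹ * z ^ k * g₀ = z ^ k := by
    intro k g _
    rw [mul_assoc, ← Subgroup.mem_center_iff.1 (Subgroup.pow_mem _ hz k) g, inv_mul_cancel_left]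
  have h1 := MonoidHom.transfer_eq_pow (Abelianization.of (G := H)) z key
  have h2 : MonoidHom.transfer (Abelianization.of (G := H)) z = 1 :=
    Abelianization.commutator_subset_ker _ hc
  refine ⟨MonoidHom.transfer_eq_pow_aux z key, ?_⟩
  rw [← Abelianization.ker_of, MonoidHom.mem_ker, ← h1, h2]

theorem sc2_step [Finite G] (H : Subgroup G) (hH : IsCoatom H) (hc : commutator G ≤ H)
    (Z : Subgroup G) (hZ : Z ≤ Subgroup.center G) :
    Nat.card (commutator G) ≤ Nat.card (commutator H) * Z.relIndex H := by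
  have hn : H.Normal := ⟨fun h hh g => by
    have : g * h * g⁻¹ = ⁅g, h⁆ * h := by rw [commutatorElement_def]; group
    rw [this]
    exact H.mul_mem (hc (Subgroup.commutator_mem_commutator (Subgroup.mem_top _) (Subgroup.mem_top _))) hh⟩
  obtain ⟨x, hx⟩ : ∃ x, x ∉ H := by
    by_contra h
    push Not at h
    exact hH.1 (eq_top_iff.2 fun y _ => h y)
  set C : Subgroup G := ⁅H, H⁆ with hC
  have hconj : ∀ u ∈ H, x * u⁻¹ * x⁻¹ ∈ H := fun u hu => hn.conj_mem _ (H.inv_mem hu) x
  let φ : H →* G ⧸ C := MonoidHom.mk' (fun u => ((⁅(u : G), x⁆ : G) : G ⧸ C)) (by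
    intro u v
    rw [← QuotientGroup.mk_mul, QuotientGroup.eq]
    have e : ⁅((u * v : H) : G), x⁆⁻¹ * (⁅(u : G), x⁆ * ⁅(v : G), x⁆) =
        ⁅(x * (u : G)⁻¹ * x⁻¹)⁻¹, ((v : G) * (x * (v : G)⁻¹ * x⁻¹))⁻¹⁆ := by
      simp only [commutatorElement_def, Subgroup.coe_mul]; group
    rw [e]
    exact Subgroup.commutator_mem_commutator (H.inv_mem (hconj _ u.2))
      (H.inv_mem (H.mul_mem v.2 (hconj _ v.2))))
  have hφ : ∀ u : H, φ u = ((⁅(u : G), x⁆ : G) : G ⧸ C) := fun _ => rfl
  set S : Subgroup G := φ.range.comap (QuotientGroup.mk' C) with hS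
  have hCS : C ≤ S := fun c hc => by
    show ((c : G) : G ⧸ C) ∈ φ.range
    rw [(QuotientGroup.eq_one_iff c).2 hc]; exact φ.range.one_mem
  have hxS : ∀ u ∈ H, ⁅u, x⁆ ∈ S := fun u hu => ⟨⟨u, hu⟩, rfl⟩
  have hSH : S ≤ H := by
    rintro s ⟨u, hu⟩
    have h1 : ⁅(u : G), x⁆⁻¹ * s ∈ C := QuotientGroup.eq.1 hu
    have h2 : s = ⁅(u : G), x⁆ * (⁅(u : G), x⁆⁻¹ * s) := by group
    rw [h2]
    exact H.mul_mem (hc (Subgroup.commutator_mem_commutator (Subgroup.mem_top _) (Subgroup.mem_top _)))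
      (Subgroup.commutator_le_left H H h1)
  have hgen : ∀ K : Subgroup G, H ≤ K → x ∈ K → ∀ g, g ∈ K := fun K h1 h2 g => by
    rw [hH.2 K (lt_of_le_of_ne h1 fun e => hx (e ▸ h2))]; trivial
  have hSn : S.Normal := by
    rw [← Subgroup.normalizer_eq_top_iff, eq_top_iff]
    intro g _
    refine hgen (Subgroup.normalizer S) (fun h hh => ?_) ?_ g
    · refine Subgroup.mem_normalizer_fintype fun s hs => ?_
      have : h * s * h⁻¹ = ⁅h, s⁆ * s := by rw [commutatorElement_def]; group
      rw [this]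
      exact S.mul_mem (hCS (Subgroup.commutator_mem_commutator hh (hSH hs))) hs
    · refine Subgroup.mem_normalizer_fintype fun s hs => ?_
      have : x * s * x⁻¹ = ⁅s, x⁆⁻¹ * s := by rw [commutatorElement_def]; group
      rw [this]
      exact S.mul_mem (S.inv_mem (hxS s (hSH hs))) hs
  have hiff : ∀ a b : G, ⁅a, b⁆ ∈ S ↔
      a ∈ (Subgroup.centralizer {((b : G) : G ⧸ S)}).comap (QuotientGroup.mk' S) := by
    intro a b
    rw [← QuotientGroup.eq_one_iff, Subgroup.mem_comap, Subgroup.mem_centralizer_singleton_iff,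
      ← commutatorElement_eq_one_iff_mul_comm]
    rfl
  have hsym : ∀ a b : G, ⁅a, b⁆ ∈ S → ⁅b, a⁆ ∈ S := fun a b h => by
    rw [← commutatorElement_inv]; exact S.inv_mem h
  have hall : ∀ y : G, (∀ u ∈ H, ⁅u, y⁆ ∈ S) → ⁅x, y⁆ ∈ S → ∀ g, ⁅g, y⁆ ∈ S :=
    fun y h1 h2 g => (hiff g y).2 (hgen _ (fun u hu => (hiff u y).1 (h1 u hu)) ((hiff x y).1 h2) g)
  have hle : commutator G ≤ S := by
    rw [commutator_def, Subgroup.commutator_le]
    intro g _ y _
    refine hall y (fun u hu => hsym _ _ (hall u (fun v hv => hCS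
      (Subgroup.commutator_mem_commutator hv hu)) (hsym _ _ (hxS u hu)) y)) ?_ g
    exact hsym _ _ (hall x hxS (by simp) y)
  refine card_le_mul ((QuotientGroup.mk' C).comp (commutator G).subtype) ?_ ?_
  · rw [← Subgroup.card_subtype H (commutator H), Subgroup.map_subtype_commutator]
    refine Nat.card_le_card_of_injective
      (fun y => ⟨y.1.1, (QuotientGroup.eq_one_iff _).1 y.2⟩) fun y z h => ?_
    exact Subtype.ext (Subtype.ext (congrArg (fun w : (⁅H, H⁆ : Subgroup G) => (w : G)) h))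
  · have h1 : ((QuotientGroup.mk' C).comp (commutator G).subtype).range ≤ φ.range := by
      rintro _ ⟨y, rfl⟩
      exact hle y.2
    refine (Subgroup.card_le_of_le h1).trans ?_
    rw [← Subgroup.index_ker]
    refine Subgroup.index_antitone fun u hu => ?_
    have h2 : ⁅(u : G), x⁆ = 1 := commutatorElement_eq_one_iff_mul_comm.2
      (Subgroup.mem_center_iff.1 (hZ hu) x).symm
    rw [MonoidHom.mem_ker, hφ, h2]
    rfl

/-- solvable groups with a central subgroup of small index have a small commutator subgroup -/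
theorem sc2 (a : ℕ) : ∀ (G : Type) [Group G] [Finite G] [Group.IsSolvable G] (Z : Subgroup G),
    Z ≤ Subgroup.center G → Z.index ≤ 2 ^ a → Nat.card (commutator G) ≤ 2 ^ (a * a) := by
  have top : ∀ (G : Type) [Group G] (b : ℕ), (⊤ : Subgroup G) ≤ Subgroup.center G →
      Nat.card (commutator G) ≤ 2 ^ b := by
    intro G _ b h
    have : commutator G = ⊥ := by
      rw [commutator_def, Subgroup.commutator_eq_bot_iff_le_centralizer]
      intro g _ y _
      exact Subgroup.mem_center_iff.1 (h trivial) y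
    rw [this, Subgroup.card_bot]
    exact Nat.one_le_two_pow
  induction a with
  | zero =>
    intro G _ _ _ Z hZ hi
    have h0 : Z.index ≠ 0 := Subgroup.index_ne_zero_of_finite
    rw [Subgroup.index_eq_one.1 (show Z.index = 1 by omega)] at hZ
    exact top G _ hZ
  | succ a ih =>
    intro G _ _ _ Z hZ hi
    by_cases ht : Z = ⊤
    · exact top G _ (ht ▸ hZ)
    have hn := normal_of_central hZ
    have : Nontrivial (G ⧸ Z) := QuotientGroup.nontrivial_iff.2 ht
    have hB : (commutator (G ⧸ Z)).comap (QuotientGroup.mk' Z) ≠ ⊤ := by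
      intro h
      apply (Group.IsSolvable.commutator_lt_top_of_nontrivial (G ⧸ Z)).ne
      rw [eq_top_iff]
      intro q _
      obtain ⟨g, rfl⟩ := QuotientGroup.mk'_surjective Z q
      exact (h ▸ Subgroup.mem_top g : g ∈ (commutator (G ⧸ Z)).comap (QuotientGroup.mk' Z))
    obtain ⟨H, hH, hBH⟩ := (eq_top_or_exists_le_coatom _).resolve_left hB
    have hZH : Z ≤ H := fun z hz => hBH (by
      show ((z : G) : G ⧸ Z) ∈ commutator (G ⧸ Z)
      rw [(QuotientGroup.eq_one_iff z).2 hz]; exact Subgroup.one_mem _)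
    have hc : commutator G ≤ H := by
      refine le_trans ?_ hBH
      rw [← Subgroup.map_le_iff_le_comap, commutator_def, Subgroup.map_commutator]
      exact Subgroup.commutator_mono le_top le_top
    have h1 := Subgroup.relIndex_mul_index hZH
    have h2 : 1 < H.index := Subgroup.one_lt_index_of_ne_top hH.1
    have h3 : Z.relIndex H ≤ 2 ^ a := by
      rw [pow_succ] at hi
      nlinarith
    have h4 := ih H (Z.subgroupOf H) (fun z hz => Subgroup.mem_center_iff.2 fun y =>
      Subtype.ext (Subgroup.mem_center_iff.1 (hZ hz) y)) h3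
    refine (sc2_step H hH hc Z hZ).trans ((Nat.mul_le_mul h4 h3).trans ?_)
    rw [← pow_add]
    exact Nat.pow_le_pow_right (by norm_num) (by nlinarith)

/-- the central commutators of any finite group -/
theorem sc [Finite G] (Z : Subgroup G) (hZ : Z ≤ Subgroup.center G) (a : ℕ)
    (hi : Z.index ≤ 2 ^ a) : Nat.card (commutator G ⊓ Z : Subgroup G) ≤ 2 ^ (a ^ 3) := by
  classical
  have hn := normal_of_central hZ
  have h0 : Z.index ≠ 0 := Subgroup.index_ne_zero_of_finite
  have hP : ∀ p : Z.index.primeFactors, ∃ P : Subgroup G, ¬ (p : ℕ) ∣ P.index ∧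
      Nat.card (commutator P) ≤ 2 ^ (a * a) := by
    intro p
    have : Fact (p : ℕ).Prime := ⟨Nat.prime_of_mem_primeFactors p.2⟩
    obtain ⟨P⟩ : Nonempty (Sylow p G) := inferInstance
    have := P.isPGroup'.isNilpotent
    refine ⟨P, P.not_dvd_index, sc2 a P (Z.subgroupOf P) (fun z hz =>
      Subgroup.mem_center_iff.2 fun y => Subtype.ext (Subgroup.mem_center_iff.1 (hZ hz) y)) ?_⟩
    exact (Nat.le_of_dvd (Nat.pos_of_ne_zero h0)
      (Subgroup.relIndex_dvd_index_of_normal Z P)).trans hi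
  choose P hP1 hP2 using hP
  let f : (commutator G ⊓ Z : Subgroup G) → ∀ p, commutator (P p) := fun z p =>
    ⟨⟨z.1 ^ (P p).index, (transfer_central (P p) z.1 (hZ z.2.2) z.2.1).1⟩,
      (transfer_central (P p) z.1 (hZ z.2.2) z.2.1).2⟩
  have hf : Function.Injective f := by
    intro z w h
    have hw : (z * w⁻¹).1 ∈ Subgroup.center G := hZ (z * w⁻¹).2.2
    have hcm : Commute z.1 w.1⁻¹ := (Subgroup.mem_center_iff.1 (hZ z.2.2) _).symm
    have h1 : ∀ p, (z * w⁻¹).1 ^ (P p).index = 1 := fun p => by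
      have : z.1 ^ (P p).index = w.1 ^ (P p).index :=
        congrArg (fun y : commutator (P p) => y.1.1) (congrFun h p)
      show (z.1 * w.1⁻¹) ^ _ = 1
      rw [hcm.mul_pow, this, inv_pow, mul_inv_cancel]
    have h2 : (z * w⁻¹).1 ^ Z.index = 1 := by
      obtain ⟨hh, h3⟩ := transfer_central Z _ hw (z * w⁻¹).2.1
      have h4 : commutator Z = ⊥ := by
        rw [commutator_def, Subgroup.commutator_eq_bot_iff_le_centralizer]
        intro g _ y _
        exact Subtype.ext (Subgroup.mem_center_iff.1 (hZ g.2) y)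
      rw [h4, Subgroup.mem_bot] at h3
      exact congrArg Subtype.val h3
    have h5 : orderOf (z * w⁻¹).1 = 1 := by
      by_contra hne
      obtain ⟨r, hr, hd⟩ := Nat.exists_prime_and_dvd hne
      have hm : r ∈ Z.index.primeFactors :=
        Nat.mem_primeFactors.2 ⟨hr, hd.trans (orderOf_dvd_of_pow_eq_one h2), h0⟩
      exact hP1 ⟨r, hm⟩ (hd.trans (orderOf_dvd_of_pow_eq_one (h1 ⟨r, hm⟩)))
    exact mul_inv_eq_one.1 (Subtype.ext (orderOf_eq_one_iff.1 h5))
  have hcard : Z.index.primeFactors.card ≤ a := by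
    have h1 : 2 ^ Z.index.primeFactors.card ≤ ∏ p ∈ Z.index.primeFactors, p :=
      pow_card_le_prod _ _ _ fun p hp => (Nat.prime_of_mem_primeFactors hp).two_le
    have h2 := Nat.le_of_dvd (Nat.pos_of_ne_zero h0) (Nat.prod_primeFactors_dvd Z.index)
    exact (Nat.pow_le_pow_iff_right (by norm_num)).1 (h1.trans (h2.trans hi))
  refine (Nat.card_le_card_of_injective f hf).trans ?_
  rw [Nat.card_pi]
  refine (prod_le_pow_card _ _ _ fun p _ => hP2 p).trans ?_
  rw [card_univ, Fintype.card_coe, ← pow_mul]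
  exact Nat.pow_le_pow_right (by norm_num) (by
    rw [show a ^ 3 = a * a * a by ring]; exact Nat.mul_le_mul_left _ hcard)

/-- the subgroup generated by `N` and some coset representatives -/
def ovr (N : Subgroup G) {a : ℕ} (f : Fin a → G ⧸ N) : Subgroup G :=
  N ⊔ Subgroup.closure (Set.range fun i => (f i).out)

theorem ct_aux [Finite G] (N H : Subgroup G) (a : ℕ) : ∀ K : Subgroup G, N ≤ K → K ≤ H →
    K.relIndex H ≤ 2 ^ a →
    ∃ f : Fin a → G ⧸ N, K ⊔ Subgroup.closure (Set.range fun i => (f i).out) = H := by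
  have hout : ∀ (K : Subgroup G) (x : G), N ≤ K → (((x : G ⧸ N).out ∈ K) ↔ x ∈ K) := by
    intro K x h
    obtain ⟨n, hn⟩ := QuotientGroup.mk_out_eq_mul N x
    rw [hn]
    exact K.mul_mem_cancel_right (h n.2)
  induction a with
  | zero =>
    intro K _ hKH hi
    have h0 : K.relIndex H ≠ 0 := Subgroup.index_ne_zero_of_finite
    refine ⟨Fin.elim0, ?_⟩
    rw [le_antisymm hKH (Subgroup.relIndex_eq_one.1 (by omega))]
    simp
  | succ a ih =>
    intro K hNK hKH hi
    by_cases hle : H ≤ K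
    · refine ⟨fun _ => ((1 : G) : G ⧸ N), le_antisymm (sup_le hKH ?_) (hle.trans le_sup_left)⟩
      rw [Subgroup.closure_le]
      rintro _ ⟨i, rfl⟩
      exact (hout H 1 (hNK.trans hKH)).2 H.one_mem
    · obtain ⟨x, hxH, hxK⟩ := SetLike.not_le_iff_exists.1 hle
      set y := (x : G ⧸ N).out with hy
      have hyH : y ∈ H := (hout H x (hNK.trans hKH)).2 hxH
      have hyK : y ∉ K := fun h => hxK ((hout K x hNK).1 h)
      have hK' : K ⊔ Subgroup.closure {y} ≤ H :=
        sup_le hKH ((Subgroup.closure_le _).2 (Set.singleton_subset_iff.2 hyH))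
      have h1 := Subgroup.relIndex_mul_relIndex K (K ⊔ Subgroup.closure {y}) H le_sup_left hK'
      have h2 : K.relIndex (K ⊔ Subgroup.closure {y}) ≠ 0 := Subgroup.index_ne_zero_of_finite
      have h3 : K.relIndex (K ⊔ Subgroup.closure {y}) ≠ 1 := fun h => hyK
        (Subgroup.relIndex_eq_one.1 h (Subgroup.mem_sup_right (Subgroup.subset_closure rfl)))
      have h4 : 2 ≤ K.relIndex (K ⊔ Subgroup.closure {y}) := by omega
      obtain ⟨f, hf⟩ := ih (K ⊔ Subgroup.closure {y}) (hNK.trans le_sup_left) hK' (by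
        rw [pow_succ] at hi
        nlinarith)
      refine ⟨Fin.cons (x : G ⧸ N) f, ?_⟩
      rw [← hf, sup_assoc, ← Subgroup.closure_union]
      congr 2
      ext g
      simp only [Set.mem_range, Fin.exists_fin_succ, Fin.cons_zero, Fin.cons_succ, Set.mem_union,
        Set.mem_singleton_iff, hy, eq_comm]

theorem ct [Finite G] (N H : Subgroup G) (a : ℕ) (hNH : N ≤ H) (hi : N.index ≤ 2 ^ a) :
    ∃ f : Fin a → G ⧸ N, ovr N f = H := by
  refine ct_aux N H a N le_rfl hNH (le_trans ?_ hi)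
  rw [← Subgroup.relIndex_top_right]
  exact Subgroup.relIndex_le_of_le_right le_top Subgroup.index_ne_zero_of_finite

end Pool.Agent.Lib.MP_d87a8f_pr.J
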