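import Mathlib

/-!
An elementary form of the theorem of Jordan on finite linear groups, with index `25 ^ (d ^ 2)`.
-/

namespace Pool.Agent.Lib.MP_d87a8f_pr.J

open Finset

section Aux

variable {G R : Type} [Group G] [NormedRing R] (π : G →* R)

theorem del_conj (h : ∀ g, ‖π g‖ ≤ 1) (g x : G) : ‖π (g * x * g⁻¹) - 1‖ ≤ ‖π x - 1‖ := by
  have e : π (g * x * g⁻¹) - 1 = π g * (π x - 1) * π g⁻¹ := by
    rw [mul_sub, sub_mul, mul_one, ← map_mul, ← map_mul, ← map_mul, mul_inv_cancel, map_one]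
  rw [e]
  calc _ ≤ ‖π g‖ * ‖π x - 1‖ * ‖π g⁻¹‖ :=
        (norm_mul_le _ _).trans (mul_le_mul_of_nonneg_right (norm_mul_le _ _) (norm_nonneg _))
    _ ≤ 1 * ‖π x - 1‖ * 1 := by gcongr <;> exact h _
    _ = _ := by ring

theorem del_div (h : ∀ g, ‖π g‖ ≤ 1) (x y : G) : ‖π (x * y⁻¹) - 1‖ ≤ ‖π x - π y‖ := by
  have e : π (x * y⁻¹) - 1 = (π x - π y) * π y⁻¹ := by
    rw [sub_mul, ← map_mul, ← map_mul, mul_inv_cancel, map_one]
  rw [e]
  exact (norm_mul_le _ _).trans (mul_le_of_le_one_right (norm_nonneg _) (h _))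

theorem del_comm (h : ∀ g, ‖π g‖ ≤ 1) (a b : G) :
    ‖π (a⁻¹ * b * a * b⁻¹) - 1‖ ≤ 2 * ‖π a - 1‖ * ‖π b - 1‖ := by
  have e1 : a⁻¹ * b * a * b⁻¹ = a⁻¹ * ((b * a) * (a * b)⁻¹) * a⁻¹⁻¹ := by group
  rw [e1]
  refine (del_conj π h _ _).trans ((del_div π h _ _).trans ?_)
  have e2 : π (b * a) - π (a * b) = (π b - 1) * (π a - 1) - (π a - 1) * (π b - 1) := by
    rw [map_mul, map_mul]; noncomm_ring
  rw [e2]
  have := norm_sub_le ((π b - 1) * (π a - 1)) ((π a - 1) * (π b - 1))
  have := norm_mul_le (π b - 1) (π a - 1)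
  have := norm_mul_le (π a - 1) (π b - 1)
  linarith

variable [Fintype G] [NormedAlgebra ℂ R]

/-- an element all of whose powers are near `1` acts trivially -/
theorem eq_one_of_pow (c : G) (r : ℝ) (hr : r < 1) (hc : ∀ t : ℕ, ‖π (c ^ t) - 1‖ ≤ r) :
    π c = 1 := by
  have hn : 0 < orderOf c := orderOf_pos c
  have h1 : (π c - 1) * ∑ t ∈ range (orderOf c), π c ^ t = 0 := by
    rw [mul_geom_sum, ← map_pow, pow_orderOf_eq_one, map_one, sub_self]
  have h2 : (orderOf c : ℂ) • (π c - 1) =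
      ∑ t ∈ range (orderOf c), (π c - 1) * (1 - π (c ^ t)) := by
    simp only [map_pow]
    rw [← mul_sum, sum_sub_distrib, mul_sub, h1, sub_zero, sum_const, card_range,
      Nat.cast_smul_eq_nsmul, mul_smul_comm, mul_one]
  have h3 : (orderOf c : ℝ) * ‖π c - 1‖ ≤ orderOf c * (‖π c - 1‖ * r) := by
    have a1 := congrArg norm h2
    rw [norm_smul, Complex.norm_natCast] at a1
    rw [a1]
    refine (norm_sum_le _ _).trans ?_
    refine (sum_le_card_nsmul _ _ (‖π c - 1‖ * r) fun t _ => ?_).trans (by simp)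
    refine (norm_mul_le _ _).trans (mul_le_mul_of_nonneg_left ?_ (norm_nonneg _))
    rw [norm_sub_rev]; exact hc t
  have h4 : ‖π c - 1‖ ≤ ‖π c - 1‖ * r := le_of_mul_le_mul_left h3 (by exact_mod_cast hn)
  have h5 : ‖π c - 1‖ = 0 := by nlinarith [norm_nonneg (π c - 1)]
  exact sub_eq_zero.1 (norm_eq_zero.1 h5)

/-- the lemma of Frobenius -/
theorem frob (h : ∀ g, ‖π g‖ ≤ 1) (a : G) (ha : ‖π a - 1‖ < 1 / 2) (b : G)
    (hb : ‖π b - 1‖ < 1 / 2) : Commute (π a) (π b) := by
  classical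
  by_contra hne
  obtain ⟨b, hbS, hmin⟩ := exists_min_image
    (univ.filter fun b : G => ‖π b - 1‖ < 1 / 2 ∧ ¬ Commute (π a) (π b))
    (fun b => ‖π b - 1‖) ⟨b, mem_filter.2 ⟨mem_univ _, hb, hne⟩⟩
  obtain ⟨hb, hne⟩ := (mem_filter.1 hbS).2
  have hpos : 0 < ‖π b - 1‖ := by
    refine norm_pos_iff.2 fun h0 => hne ?_
    rw [sub_eq_zero.1 h0]; exact Commute.one_right _
  set c := a⁻¹ * b * a * b⁻¹ with hc
  have hlt : ‖π c - 1‖ < ‖π b - 1‖ := by
    have := del_comm π h a b
    nlinarith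
  have hcomm : Commute (π a) (π c) := by
    by_contra hn
    exact absurd (hmin c (mem_filter.2 ⟨mem_univ _, hlt.trans hb, hn⟩)) (not_le.2 hlt)
  have hpow : ∀ t : ℕ, π (c ^ t) = π ((a ^ t)⁻¹ * b * (a ^ t)⁻¹⁻¹ * b⁻¹) := by
    intro t
    have e1 : π ((b * a * b⁻¹) ^ t) = π (a ^ t) * π (c ^ t) := by
      rw [show b * a * b⁻¹ = a * c by rw [hc]; group, map_pow, map_mul, hcomm.mul_pow, map_pow,
        map_pow]
    have e2 : (a ^ t)⁻¹ * b * (a ^ t)⁻¹⁻¹ * b⁻¹ = (a ^ t)⁻¹ * (b * a * b⁻¹) ^ t := by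
      rw [conj_pow]; group
    rw [e2, map_mul, e1, ← mul_assoc, ← map_mul, inv_mul_cancel, map_one, one_mul]
  have hone : π c = 1 := eq_one_of_pow π c (2 * ‖π b - 1‖) (by linarith) fun t => by
    rw [hpow t]
    refine (del_div π h _ _).trans ?_
    have a1 := del_conj π h (a ^ t)⁻¹ b
    have a2 := norm_sub_le (π ((a ^ t)⁻¹ * b * (a ^ t)⁻¹⁻¹) - 1) (π b - 1)
    rw [sub_sub_sub_cancel_right] at a2
    linarith
  apply hne
  have e3 : b * a = a * c * b := by rw [hc]; group
  show π a * π b = π b * π a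
  rw [← map_mul π b, e3, map_mul, map_mul, hone, mul_one]

theorem jordan_aux [FiniteDimensional ℂ R] (h : ∀ g, ‖π g‖ ≤ 1) :
    ∃ A : Subgroup G, A.Normal ∧ ⁅A, A⁆ ≤ π.ker ∧ A.index ≤ 25 ^ Module.finrank ℂ R := by
  classical
  set S : Set G := {g | ‖π g - 1‖ < 1 / 2} with hS
  have hinv : ∀ x y : G, Commute (π x) (π y) → Commute (π x⁻¹) (π y) := fun x y hxy =>
    (Commute.units_inv_left (u := π.toHomUnits x) hxy)
  have hcl : ∀ y : G, (∀ x ∈ S, Commute (π x) (π y)) →
      ∀ x ∈ Subgroup.closure S, Commute (π x) (π y) := by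
    intro y hy x hx
    induction hx using Subgroup.closure_induction with
    | mem x hx => exact hy x hx
    | one => rw [map_one]; exact Commute.one_left _
    | mul x z _ _ h1 h2 => rw [map_mul]; exact h1.mul_left h2
    | inv x _ h1 => exact hinv x y h1
  refine ⟨Subgroup.closure S, ⟨fun x hx g => ?_⟩, ?_, ?_⟩
  · induction hx using Subgroup.closure_induction with
    | mem x hx => exact Subgroup.subset_closure ((del_conj π h g x).trans_lt hx)
    | one => simp
    | mul x z _ _ h1 h2 =>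
      rw [show g * (x * z) * g⁻¹ = g * x * g⁻¹ * (g * z * g⁻¹) by group]
      exact Subgroup.mul_mem _ h1 h2
    | inv x _ h1 =>
      rw [show g * x⁻¹ * g⁻¹ = (g * x * g⁻¹)⁻¹ by group]
      exact Subgroup.inv_mem _ h1
  · rw [Subgroup.commutator_le]
    intro x hx y hy
    have h1 : Commute (π x) (π y) :=
      hcl y (fun z hz => (hcl z (fun w hw => frob π h w hw z hz) y hy).symm) x hx
    rw [MonoidHom.mem_ker, commutatorElement_def, map_mul, map_mul, map_mul, h1.eq, mul_assoc,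
      mul_assoc, ← mul_assoc (π x), ← map_mul, mul_inv_cancel, map_one, one_mul, ← map_mul,
      mul_inv_cancel, map_one]
  · have : Fintype (G ⧸ Subgroup.closure S) := Fintype.ofFinite _
    set f : G ⧸ Subgroup.closure S → R := fun q => (2 : ℂ) • π q.out⁻¹ with hf
    have hsep : ∀ q q', q ≠ q' → 1 ≤ ‖f q - f q'‖ := by
      intro q q' hq
      by_contra hlt
      apply hq
      rw [← q.out_eq, ← q'.out_eq]
      apply QuotientGroup.eq.mpr
      apply Subgroup.subset_closure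
      have a1 := del_div π h q.out⁻¹ q'.out⁻¹
      rw [inv_inv] at a1
      simp only [hf, ← smul_sub, norm_smul, Complex.norm_ofNat, not_le] at hlt
      show ‖π _ - 1‖ < 1 / 2
      linarith
    have hinj : Function.Injective f := fun q q' hq => by
      by_contra hne
      have := hsep q q' hne
      rw [hq, sub_self, norm_zero] at this
      linarith
    have hc := Besicovitch.card_le_of_separated (univ.image f) (fun c hc => by
      obtain ⟨q, -, rfl⟩ := mem_image.1 hc
      simp only [hf, norm_smul, Complex.norm_ofNat]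
      linarith [h q.out⁻¹]) (fun c hc e he hne => by
      obtain ⟨q, -, rfl⟩ := mem_image.1 hc
      obtain ⟨q', -, rfl⟩ := mem_image.1 he
      exact hsep q q' fun h0 => hne (by rw [h0]))
    rw [card_image_of_injective _ hinj, card_univ, finrank_real_of_complex, pow_mul] at hc
    rw [Subgroup.index, Nat.card_eq_fintype_card]
    exact hc

end Aux

open scoped Matrix.Norms.L2Operator MatrixOrder ComplexOrder Matrix in
/-- the theorem of Jordan with the index `25 ^ (d ^ 2)` -/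
theorem jordan {G : Type} [Group G] [Fintype G] {d : ℕ} (ρ : G →* Matrix (Fin d) (Fin d) ℂ) :
    ∃ A : Subgroup G, A.Normal ∧ ⁅A, A⁆ ≤ ρ.ker ∧ A.index ≤ 25 ^ (d * d) := by
  classical
  set H : Matrix (Fin d) (Fin d) ℂ := ∑ g : G, (ρ g)ᴴ * ρ g with hH
  have h1 : H.PosDef := by
    rw [hH, ← add_sum_erase _ _ (mem_univ (1 : G))]
    refine Matrix.PosDef.add_posSemidef (by simpa using Matrix.PosDef.one) ?_
    exact Matrix.posSemidef_sum _ fun g _ => Matrix.posSemidef_conjTranspose_mul_self _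
  have h2 : ∀ x, star (ρ x) * H * ρ x = H := by
    intro x
    rw [hH, mul_sum, sum_mul]
    refine Fintype.sum_equiv (Equiv.mulRight x) _ _ fun g => ?_
    rw [Equiv.coe_mulRight, map_mul, Matrix.conjTranspose_mul, Matrix.star_eq_conjTranspose]
    simp only [mul_assoc]
  obtain ⟨B, hB⟩ := CStarAlgebra.nonneg_iff_eq_star_mul_self.mp h1.posSemidef.nonneg
  have hBu : IsUnit B := by
    have := h1.isUnit
    rw [hB, Matrix.isUnit_iff_isUnit_det, Matrix.det_mul] at this
    exact (Matrix.isUnit_iff_isUnit_det B).2 (isUnit_of_mul_isUnit_right this)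
  obtain ⟨u, rfl⟩ := hBu
  let π : G →* Matrix (Fin d) (Fin d) ℂ :=
    { toFun := fun g => u.val * ρ g * (u⁻¹).val
      map_one' := by simp
      map_mul' := fun x y => by simp [mul_assoc] }
  have hun : ∀ g, star (π g) * π g = 1 := by
    intro g
    have e : star (π g) * π g =
        star (u⁻¹).val * (star (ρ g) * (star u.val * u.val) * ρ g) * (u⁻¹).val := by
      show star (u.val * ρ g * (u⁻¹).val) * (u.val * ρ g * (u⁻¹).val) = _
      simp only [star_mul, mul_assoc]
    rw [e, ← hB, h2, hB, ← mul_assoc, ← star_mul, mul_assoc]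
    simp
  have hn : ∀ g, ‖π g‖ ≤ 1 := by
    intro g
    rcases subsingleton_or_nontrivial (Matrix (Fin d) (Fin d) ℂ) with hs | hs
    · rw [Subsingleton.elim (π g) 0]; simp
    · have := CStarRing.norm_star_mul_self (x := π g)
      rw [hun g, norm_one] at this
      nlinarith [norm_nonneg (π g)]
  obtain ⟨A, a1, a2, a3⟩ := jordan_aux π hn
  refine ⟨A, a1, fun x hx => ?_, by simpa [Module.finrank_matrix] using a3⟩
  have h3 : u.val * ρ x * (u⁻¹).val = 1 := a2 hx
  rw [MonoidHom.mem_ker]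
  have h4 := congrArg (fun M => (u⁻¹).val * M * u.val) h3
  simpa [mul_assoc] using h4

end Pool.Agent.Lib.MP_d87a8f_pr.J
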