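import Mathlib
import Pool.Agent.Lib.MP_d87a8f_pr.E.Enc
import Pool.Agent.Lib.MP_d87a8f_pr.J.Grp
import Pool.Agent.Lib.MP_d87a8f_pr.J.Jordan

/-!
Counting the irreducible representations of small degree.
-/

namespace Pool.Agent.Lib.MP_d87a8f_pr.J

open Finset Pool.Agent.Lib.MP_d87a8f_pr.E
open scoped commutatorElement

theorem card_central_le {Q : Type} [Group Q] [Finite Q] (Z : Subgroup Q)
    (hZ : Z ≤ Subgroup.center Q) (a : ℕ) (hi : Z.index ≤ 2 ^ a) :
    Nat.card Z ≤ 2 ^ (a ^ 3) * Nat.card (Abelianization Q) := by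
  refine card_le_mul ((Abelianization.of (G := Q)).comp Z.subtype) (le_trans ?_ (sc Z hZ a hi))
    (Subgroup.card_le_card_group _)
  refine Nat.card_le_card_of_injective (fun y => ⟨y.1.1, ?_, y.1.2⟩) fun y z h => ?_
  · rw [← Abelianization.ker_of]; exact y.2
  · exact Subtype.ext (Subtype.ext
      (congrArg (fun w : (commutator Q ⊓ Z : Subgroup Q) => (w : Q)) h))

variable {G : Type} [Group G] [Fintype G]

/-- the linear characters of `N` that are fixed by `H` -/
theorem cnt_lin (N H : Subgroup G) [hN : N.Normal] (a : ℕ) (hi : N.index ≤ 2 ^ a) {ι : Type}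
    (t : Finset ι) (θ : ι → G → ℂ) (hl : ∀ i ∈ t, Lin N (θ i)) (hNH : N ≤ H)
    (hv : ∀ i ∈ t, ∀ g ∈ H, ∀ x ∈ N, θ i (g * x * g⁻¹) = θ i x)
    (hd : ∀ i ∈ t, ∀ j ∈ t, (∀ x ∈ N, θ i x = θ j x) → i = j) :
    t.card ≤ 2 ^ (a ^ 3) * Nat.card (Abelianization H) := by
  classical
  set N' : Subgroup H := N.subgroupOf H with hN'
  set K : Subgroup H := ⁅N', ⊤⁆ with hK
  set π := QuotientGroup.mk' K with hπ
  have hπs : Function.Surjective π := QuotientGroup.mk'_surjective K
  set Z := N'.map π with hZ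
  have hZc : Z ≤ Subgroup.center (H ⧸ K) := by
    rintro _ ⟨n, hn, rfl⟩
    rw [Subgroup.mem_center_iff]
    intro q
    obtain ⟨h, rfl⟩ := hπs q
    have h1 : π ⁅n, h⁆ = 1 := (QuotientGroup.eq_one_iff _).2
      (Subgroup.commutator_mem_commutator hn (Subgroup.mem_top h))
    rw [map_commutatorElement] at h1
    exact (commutatorElement_eq_one_iff_mul_comm.1 h1).symm
  have h0 : N.index ≠ 0 := Subgroup.index_ne_zero_of_finite
  have hZi : Z.index ≤ 2 ^ a := (Nat.le_of_dvd (Nat.pos_of_ne_zero h0)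
    ((N'.index_map_dvd hπs).trans (Subgroup.relIndex_dvd_index_of_normal N H))).trans hi
  have hab : Nat.card (Abelianization (H ⧸ K)) ≤ Nat.card (Abelianization H) := by
    refine Nat.card_le_card_of_surjective (Abelianization.map π) fun y => ?_
    obtain ⟨q, rfl⟩ := QuotientGroup.mk_surjective y
    obtain ⟨h, rfl⟩ := hπs q
    exact ⟨Abelianization.of h, rfl⟩
  refine le_trans ?_ ((card_central_le Z hZc a hZi).trans (Nat.mul_le_mul_left _ hab))
  let lam : t → N' →* ℂ := fun i =>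
    { toFun := fun x => θ i x.1.1
      map_one' := (hl i i.2).1
      map_mul' := fun x y => (hl i i.2).2 _ x.2 _ y.2 }
  have hinj : Function.Injective lam := fun i j h => Subtype.ext (hd i i.2 j j.2 fun x hx =>
    DFunLike.congr_fun h (⟨⟨x, hNH hx⟩, hx⟩ : N'))
  have hker : ∀ i, K ≤ (lam i).ker.map N'.subtype := by
    intro i
    rw [hK, Subgroup.commutator_le]
    intro n hn' h _
    have hn : (n : G) ∈ N := hn'
    have hm : (h : G) * (n : G)⁻¹ * (h : G)⁻¹ ∈ N := hN.conj_mem _ (N.inv_mem hn) _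
    have e : ((⁅n, h⁆ : H) : G) = (n : G) * ((h : G) * (n : G)⁻¹ * (h : G)⁻¹) := by
      simp [commutatorElement_def, mul_assoc]
    have hm2 : ⁅n, h⁆ ∈ N' := by
      show ((⁅n, h⁆ : H) : G) ∈ N
      rw [e]; exact N.mul_mem hn hm
    refine ⟨⟨⁅n, h⁆, hm2⟩, ?_, rfl⟩
    show θ i ((⁅n, h⁆ : H) : G) = 1
    rw [e, (hl i i.2).2 _ hn _ hm, hv i i.2 _ h.2 _ (N.inv_mem hn),
      ← (hl i i.2).2 _ hn _ (N.inv_mem hn), mul_inv_cancel, (hl i i.2).1]
  have hp := π.subgroupMap_surjective N'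
  have hsame : ∀ i (x y : N'), π.subgroupMap N' x = π.subgroupMap N' y → lam i x = lam i y := by
    intro i x y h
    have h1 : (x : H)⁻¹ * y ∈ K := QuotientGroup.eq.1 (congrArg Subtype.val h)
    obtain ⟨w, hw, hw'⟩ := hker i h1
    have h2 : w = x⁻¹ * y := Subtype.ext hw'
    have h3 : lam i (x⁻¹ * y) = 1 := h2 ▸ hw
    rw [← mul_inv_cancel_left x y, map_mul, h3, mul_one]
  have hli := (linearIndependent_monoidHom N' ℂ).comp lam hinj
  have hli2 : LinearIndependent ℂ fun i : t => fun z : Z => lam i (Function.surjInv hp z) := by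
    refine LinearIndependent.of_comp (LinearMap.funLeft ℂ ℂ (π.subgroupMap N')) ?_
    have e : (LinearMap.funLeft ℂ ℂ (π.subgroupMap N')) ∘
        (fun i : t => fun z : Z => lam i (Function.surjInv hp z)) =
          (fun f : N' →* ℂ => (f : N' → ℂ)) ∘ lam := by
      funext i x
      exact hsame i _ _ (Function.surjInv_eq hp _)
    exact e ▸ hli
  have : Fintype Z := Fintype.ofFinite _
  have := hli2.fintype_card_le_finrank
  rwa [Fintype.card_coe, Module.finrank_fintype_fun_eq_card, ← Nat.card_eq_fintype_card] at this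

variable [DecidableEq G]

theorem irr_ch (I : Q.Irr G) (i : Fin I.s) (B : Subgroup G) :
    Ch B (fun x => (I.ρ i x).trace) := ⟨I.d i, (I.ρ i).comp B.subtype, fun _ => rfl⟩

/-- at most `[G : N]` irreducible representations lie over one linear character of `N` -/
theorem cnt_over (I : Q.Irr G) (N : Subgroup G) {θ : G → ℂ} (hθ : Ch N θ) (h1 : θ 1 = 1) :
    (univ.filter fun i => ip N (fun x => (I.ρ i x).trace) θ ≠ 0).card ≤ N.index := by
  choose m hm using fun i => (irr_ch I i N).ip_nat hθ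
  have e1 := ip_sum N univ (fun i => (I.d i : ℂ)) (fun i x => (I.ρ i x).trace) θ
  have e2 : ip N (fun x => ∑ i, (I.d i : ℂ) * (I.ρ i x).trace) θ = N.index := by
    simp only [I.reg, ip]
    rw [sum_eq_single 1 (fun x _ hx => by rw [if_neg hx, zero_mul])
      (fun h => absurd (mem_els.2 N.one_mem) h), if_pos rfl, inv_one, h1, mul_one,
      ← Nat.card_eq_fintype_card, ← N.card_mul_index, Nat.cast_mul,
      inv_mul_cancel_left₀ (card_ne N)]
  rw [e2] at e1
  simp only [hm] at e1 ⊢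
  have e3 : N.index = ∑ i, I.d i * m i := by exact_mod_cast e1
  rw [e3, card_filter]
  refine sum_le_sum fun i _ => ?_
  split_ifs with h
  · exact Nat.mul_pos (I.pos i) (Nat.pos_of_ne_zero fun h0 => h (by rw [h0, Nat.cast_zero]))
  · exact Nat.zero_le _

open Classical in
/-- representations of small degree with commutative image of `N` -/
theorem cnt_comm (I : Q.Irr G) (N : Subgroup G) [hN : N.Normal] (a D M : ℕ)
    (hi : N.index ≤ 2 ^ a)
    (hM : ∀ H : Subgroup G, H.index ≤ D → Nat.card (Abelianization H) ≤ M) :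
    ((univ.filter fun i => I.d i ≤ D).filter fun i => ⁅N, N⁆ ≤ (I.ρ i).ker).card ≤
      (2 ^ a) ^ a * (2 ^ (a ^ 3) * M) * 2 ^ a := by
  obtain ⟨B⟩ := exists_bas N
  have : Fintype (G ⧸ N) := Fintype.ofFinite _
  set T : (Fin a → G ⧸ N) → Finset (Fin B.s) := fun f => univ.filter fun j =>
    Lin N (B.χ j) ∧ stab ⊤ N (B.χ j) = ovr N f ∧ (ovr N f).index ≤ D with hT
  have hT1 : ∀ f, (T f).card ≤ 2 ^ (a ^ 3) * M := by
    intro f
    rcases (T f).eq_empty_or_nonempty with h | ⟨j, hj⟩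
    · rw [h]; exact Nat.zero_le _
    refine (cnt_lin N (ovr N f) a hi (T f) B.χ (fun i h => (mem_filter.1 h).2.1) le_sup_left
      (fun i h g hg => (mem_stab.1 ((mem_filter.1 h).2.2.1 ▸ hg)).2) fun i _ j _ h => ?_).trans
      (Nat.mul_le_mul_left _ (hM _ (mem_filter.1 hj).2.2.2))
    by_contra hne
    have := B.orth i j hne
    rw [ip_congr h (fun _ _ => rfl), (B.ir j).2] at this
    exact one_ne_zero this
  have hsub : ((univ.filter fun i => I.d i ≤ D).filter fun i => ⁅N, N⁆ ≤ (I.ρ i).ker) ⊆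
      (univ.biUnion T).biUnion fun j =>
        univ.filter fun i => ip N (fun x => (I.ρ i x).trace) (B.χ j) ≠ 0 := by
    intro i hi'
    obtain ⟨h1, h2⟩ := mem_filter.1 hi'
    have hD := (mem_filter.1 h1).2
    have hone : (fun x => (I.ρ i x).trace) 1 = (I.d i : ℂ) := by simp
    obtain ⟨θ, hθ, hip⟩ := (irr_ch I i N).cl.exists_ir
      (hone.trans_ne (Nat.cast_ne_zero.2 (I.pos i).ne'))
    obtain ⟨j, hj⟩ := hθ.exists_eq B
    rw [ip_congr (fun _ _ => rfl) hj] at hip
    have hkv : KInv N ⁅N, N⁆ (fun x => (I.ρ i x).trace) := fun y _ x hx => by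
      show (I.ρ i (y * x)).trace = _
      rw [map_mul, MonoidHom.mem_ker.1 (h2 hx), mul_one]
    have hlin : Lin N (B.χ j) := (B.ir j).lin_of_comm le_rfl
      ((B.ir j).kinv (Subgroup.commutator_le_left N N) hkv hip)
    have hNs : N ≤ stab ⊤ N (B.χ j) := fun g hg =>
      mem_stab.2 ⟨trivial, fun x hx => (B.ir j).1.cl g hg x hx⟩
    obtain ⟨f, hf⟩ := ct N _ a hNs hi
    obtain ⟨m, hm⟩ := (irr_ch I i N).ip_nat (B.ir j).1
    have hm0 : 1 ≤ m := Nat.pos_of_ne_zero fun h0 => hip (by rw [hm, h0, Nat.cast_zero])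
    have ho := orbit_le (N := ⊤) (e := 1) le_top (irr_ch I i ⊤) (B.ir j) hm
      (by rw [hlin.1, Nat.cast_one]) hone
    rw [Subgroup.relIndex_top_right, mul_one] at ho
    refine mem_biUnion.2 ⟨j, mem_biUnion.2 ⟨f, mem_univ _, mem_filter.2
      ⟨mem_univ _, hlin, hf.symm, ?_⟩⟩, mem_filter.2 ⟨mem_univ _, hip⟩⟩
    rw [hf]
    exact ((Nat.le_mul_of_pos_right _ hm0).trans ho).trans hD
  refine (card_le_card hsub).trans ((card_biUnion_le_card_mul _ _ (2 ^ a) fun j hj => ?_).trans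
    (Nat.mul_le_mul_right _ ((card_biUnion_le_card_mul _ _ _ fun f _ => hT1 f).trans
      (Nat.mul_le_mul_right _ ?_))))
  · obtain ⟨f, -, hf⟩ := mem_biUnion.1 hj
    exact (cnt_over I N (B.ir j).1 (mem_filter.1 hf).2.1.1).trans hi
  · rw [card_univ, Fintype.card_fun, Fintype.card_fin, ← Nat.card_eq_fintype_card]
    exact Nat.pow_le_pow_left hi a

/-- the count in power form -/
theorem low_pow (D t C M : ℕ) (hC : 5 * (D * D) * t * 2 ^ C < 3 ^ C)
    (hM : ∀ H : Subgroup G, H.index ≤ D → Nat.card (Abelianization H) ≤ M) :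
    lowDim G D ^ t ≤
      Fintype.card G ^ C * (D ^ 2 * 2 ^ (3 * (25 * (D * D) * t * C) ^ 3) * M) ^ t := by
  classical
  obtain ⟨I⟩ := Q.exists_irr G
  set a := 25 * (D * D) * t * C with ha
  choose A hA1 hA2 hA3 using fun i => jordan (I.ρ i)
  have h32 : ∀ n, 25 ^ n ≤ 2 ^ (5 * n) := fun n => by
    rw [pow_mul]; exact Nat.pow_le_pow_left (by norm_num) n
  have h := tensor (univ.filter fun i => I.d i ≤ D) (fun i => (I.ρ i).ker) A (25 ^ (D * D)) t C
    ((2 ^ a) ^ a * (2 ^ (a ^ 3) * M) * 2 ^ a) (Nat.one_le_pow _ _ (by norm_num))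
    (fun i _ => inferInstance) (fun i _ => hA1 i) (fun i _ => hA2 i)
    (fun i hi => (hA3 i).trans (Nat.pow_le_pow_right (by norm_num)
      (Nat.mul_le_mul (mem_filter.1 hi).2 (mem_filter.1 hi).2)))
    (by
      rw [← pow_mul, ← pow_mul]
      exact (h32 _).trans_lt (Nat.pow_lt_pow_right (by norm_num) (by nlinarith)))
    (fun N hN hi => cnt_comm I N a D M (hi.trans (by
      rw [← pow_mul, ← pow_mul]
      exact (h32 _).trans (le_of_eq (by rw [ha]; congr 1; ring)))) hM)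
  have h1 : lowDim G D ≤ D ^ 2 * (univ.filter fun i => I.d i ≤ D).card := by
    refine (I.lowDim_le D).trans ?_
    rw [mul_comm, ← smul_eq_mul]
    exact sum_le_card_nsmul _ _ _ fun i hi => Nat.pow_le_pow_left (mem_filter.1 hi).2 2
  have h2 : (2 ^ a) ^ a * (2 ^ (a ^ 3) * M) * 2 ^ a ≤ 2 ^ (3 * a ^ 3) * M := by
    rw [show (2 ^ a) ^ a * (2 ^ (a ^ 3) * M) * 2 ^ a = 2 ^ (a * a + a ^ 3 + a) * M by
      rw [pow_add, pow_add, pow_mul]; ring]
    refine Nat.mul_le_mul_right _ (Nat.pow_le_pow_right (by norm_num) ?_)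
    have b1 : a ≤ a ^ 3 := Nat.le_self_pow (by norm_num) a
    have b2 : a * a ≤ a ^ 3 := by
      rcases Nat.eq_zero_or_pos a with h0 | h0
      · rw [h0]; simp
      · rw [← sq]; exact Nat.pow_le_pow_right h0 (by norm_num)
    omega
  calc lowDim G D ^ t ≤ (D ^ 2 * (univ.filter fun i => I.d i ≤ D).card) ^ t :=
        Nat.pow_le_pow_left h1 t
    _ = (D ^ 2) ^ t * (univ.filter fun i => I.d i ≤ D).card ^ t := mul_pow _ _ _
    _ ≤ (D ^ 2) ^ t * (Fintype.card G ^ C * (2 ^ (3 * a ^ 3) * M) ^ t) :=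
        Nat.mul_le_mul_left _ (h.trans (Nat.mul_le_mul_left _ (Nat.pow_le_pow_left h2 t)))
    _ = _ := by rw [mul_assoc (D ^ 2), mul_pow (D ^ 2)]; ring

end Pool.Agent.Lib.MP_d87a8f_pr.J
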