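import Mathlib
import Pool.Agent.Lib.MP_d87a8f_pr.J.Cnt
import Pool.Agent.Lib.MP_d87a8f_pr.Q.Full

/-!
The bound on the representations of small degree in numerical form.
-/

namespace Pool.Agent.Lib.MP_d87a8f_pr.J

open Filter

theorem poly_le_two_pow (K r : ℕ) : ∃ b0 : ℕ, ∀ b, b0 ≤ b → K * b ^ r ≤ 2 ^ b := by
  have h := (tendsto_pow_const_div_const_pow_of_one_lt r (show (1 : ℝ) < 2 by norm_num)).const_mul
    (K : ℝ)
  rw [mul_zero] at h
  obtain ⟨b0, hb⟩ := eventually_atTop.1 (h.eventually (gt_mem_nhds (show (0 : ℝ) < 1 by norm_num)))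
  refine ⟨b0, fun b hb0 => ?_⟩
  have h1 := hb b hb0
  rw [← mul_div_assoc, div_lt_one (by positivity)] at h1
  exact_mod_cast h1.le

theorem group_bound : Q.GroupBound := by
  obtain ⟨b0, hb0⟩ := poly_le_two_pow (2 * (3 * 800 ^ 3) ^ 2) 18
  refine ⟨12, 8, 2 ^ b0, by norm_num, fun G _ _ d T M hd hc hT hG hM => ?_⟩
  classical
  have hT0 : T ≠ 0 := by have := Nat.one_le_two_pow (n := b0); omega
  obtain ⟨b, hb1, hlt, hle, hbb⟩ : ∃ b, 1 ≤ b ∧ T < 2 ^ b ∧ 2 ^ b ≤ 2 * T ∧ b0 ≤ b := by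
    refine ⟨Nat.log 2 T + 1, by omega, Nat.lt_pow_succ_log_self (by norm_num) T, ?_, ?_⟩
    · rw [pow_succ]
      have := Nat.pow_log_le_self 2 hT0
      omega
    · have := Nat.le_log_of_pow_le (by norm_num) hT
      omega
  have h1 := hb0 b hbb
  have hd2 : d * d ≤ T := by
    rw [← sq]; exact (Nat.pow_le_pow_right hd (by norm_num)).trans hc
  have h2 : 40 * b ^ 2 ≤ 2 ^ b :=
    (Nat.mul_le_mul (by norm_num) (Nat.pow_le_pow_right hb1 (by norm_num))).trans h1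
  have hC : 5 * (d * d) * (8 * b ^ 2) * 2 ^ (4 * b) < 3 ^ (4 * b) := by
    calc 5 * (d * d) * (8 * b ^ 2) * 2 ^ (4 * b) = (d * d) * (40 * b ^ 2) * 16 ^ b := by
          rw [pow_mul]; ring
      _ ≤ 2 ^ b * 2 ^ b * 16 ^ b :=
          Nat.mul_le_mul_right _ (Nat.mul_le_mul (hd2.trans hlt.le) h2)
      _ = (2 * 2 * 16) ^ b := by rw [← mul_pow, ← mul_pow]
      _ < (3 ^ 4) ^ b := Nat.pow_lt_pow_left (by norm_num) (by omega)
      _ = 3 ^ (4 * b) := (pow_mul _ _ _).symm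
  have h3 := low_pow (G := G) d (8 * b ^ 2) (4 * b) M hC hM
  have h4 : Fintype.card G ^ (4 * b) ≤ (2 ^ T) ^ (8 * b ^ 2) := by
    refine (Nat.pow_le_pow_left (hG.trans (Nat.pow_le_pow_left hlt.le _)) _).trans (le_of_eq ?_)
    rw [← pow_mul, ← pow_mul, ← pow_mul]
    congr 1
    ring
  have h5 : 3 * (25 * (d * d) * (8 * b ^ 2) * (4 * b)) ^ 3 ≤ T := by
    have a1 : (3 * 800 ^ 3 * b ^ 9) ^ 2 ≤ T := by
      have : 2 * (3 * 800 ^ 3 * b ^ 9) ^ 2 = 2 * (3 * 800 ^ 3) ^ 2 * b ^ 18 := by ring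
      omega
    have a2 : (3 * (25 * (d * d) * (8 * b ^ 2) * (4 * b)) ^ 3) ^ 2 ≤ T ^ 2 := by
      calc _ = (3 * 800 ^ 3 * b ^ 9) ^ 2 * d ^ 12 := by ring
        _ ≤ T * T := Nat.mul_le_mul a1 hc
        _ = T ^ 2 := (sq T).symm
    exact (Nat.pow_le_pow_iff_left (by norm_num)).1 a2
  have h6 : d ^ 2 ≤ 2 ^ T := by rw [sq]; exact hd2.trans Nat.lt_two_pow_self.le
  have h7 := h3.trans (Nat.mul_le_mul h4 (Nat.pow_le_pow_left (Nat.mul_le_mul_right M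
    (Nat.mul_le_mul h6 (Nat.pow_le_pow_right (by norm_num) h5))) _))
  rw [← mul_pow] at h7
  refine ((Nat.pow_le_pow_iff_left (by positivity)).1 h7).trans (le_of_eq ?_)
  rw [show (8 : ℕ) = 2 * 2 * 2 by norm_num, mul_pow, mul_pow]
  ring

end Pool.Agent.Lib.MP_d87a8f_pr.J
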